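import Pool.Agent.X125.TM.Main

/-!
# Weak coercivity does not imply the Trudinger-Moser inequality with remainder

Let `Ψ = 1 + ∑ a_j χ_j` in the unit disc, where the `χ_j` are bumps with disjoint supports which
accumulate only at a boundary point, and `V = - ΔΨ / Ψ`. The ground state identity
`Q_V (Ψ v) = ∫ Ψ² |∇v|²` and `Ψ ≥ 1` give weak coercivity. For cut-offs `η_j = 1` near the support of
`χ_j` and supported where no other `χ_k` lives, `Q_V (t Ψ η_j) = t² ∫ |∇η_j|²` does not depend on the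
heights `a_j`, while `Ψ ≥ 1 + a_j` on a small disc; large `a_j` make the supremum infinite.

Files: `Pool/Agent/X125/TM/*`.
-/

set_option autoImplicit false

noncomputable section

open MeasureTheory Metric Set
open scoped ContDiff

namespace Pool.Agent.Results.MP_ed80cb_an.CoerciveBlowup

/-- the Euclidean plane -/
abbrev Plane := EuclideanSpace ℝ (Fin 2)

/-- the class `C_0^∞(Ω)` of smooth functions with compact support in `Ω` -/
def IsTest (Ω : Set Plane) (u : Plane → ℝ) : Prop :=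
  ContDiff ℝ ∞ u ∧ HasCompactSupport u ∧ tsupport u ⊆ Ω

/-- the quadratic form `Q_V(u) = ∫_Ω |∇u|² - ∫_Ω V u²` -/
def Q (Ω : Set Plane) (V u : Plane → ℝ) : ℝ :=
  (∫ x in Ω, ‖gradient u x‖ ^ 2) - ∫ x in Ω, V x * u x ^ 2

/-- the local Kato class on `Ω` -/
def LocalKato (Ω : Set Plane) (V : Plane → ℝ) : Prop :=
  ∀ K : Set Plane, IsCompact K → K ⊆ Ω → ∀ ε > 0, ∃ δ > 0, ∀ r, 0 < r → r < δ → ∀ x : Plane,
    ∫⁻ y in K ∩ ball x r, ENNReal.ofReal (Real.log (1 / dist x y) * |V y|) ≤ ENNReal.ofReal ε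

/-- weak coercivity of `Q_V` -/
def WeaklyCoercive (Ω : Set Plane) (V : Plane → ℝ) : Prop :=
  ∃ E : Set Plane, IsOpen E ∧ E.Nonempty ∧ IsCompact (closure E) ∧ closure E ⊆ Ω ∧
    ∃ δ > 0, ∀ u, IsTest Ω u → δ * (∫ x in E, u x) ^ 2 ≤ Q Ω V u

/-- the supremum of `∫_Ω exp(4 π u²)` over test functions with `Q_V(u) ≤ 1` is infinite -/
def SupInfinite (Ω : Set Plane) (V : Plane → ℝ) : Prop :=
  ∀ M : ℝ, ∃ u, IsTest Ω u ∧ Q Ω V u ≤ 1 ∧
    IntegrableOn (fun x => Real.exp (4 * Real.pi * u x ^ 2)) Ω ∧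
    M < ∫ x in Ω, Real.exp (4 * Real.pi * u x ^ 2)

open X125.TM in
lemma Q_eq' (W u : Plane → ℝ) : Q (ball 0 1) W u = X125.TM.Q W u := by
  have h : ∀ x, ‖gradient u x‖ = ‖fderiv ℝ u x‖ := fun x => by
    unfold gradient
    rw [LinearIsometryEquiv.norm_map]
  unfold Q X125.TM.Q
  simp only [h]
  rfl

open X125.TM in
/-- **Disproof of Q1 (potential type).** On the unit disc `Ω` of the plane there is a potential `V`,
smooth in `Ω` and in the local Kato class, such that `Q_V` is weakly coercive and nevertheless the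
supremum of `∫_Ω exp(4 π u²)` over `u ∈ C_0^∞(Ω)` with `Q_V(u) ≤ 1` is infinite. -/
theorem result : ∃ V : Plane → ℝ, ContDiffOn ℝ ∞ V (ball 0 1) ∧ LocalKato (ball 0 1) V ∧
    WeaklyCoercive (ball 0 1) V ∧ SupInfinite (ball 0 1) V := by
  have hV := contDiffOn_V aa_nonneg
  refine ⟨V aa, hV, ?_, ?_, ?_⟩
  · intro K hK hKO ε hε
    obtain ⟨δ, hδ, -, h⟩ := kato hV.continuousOn hK hKO hε
    exact ⟨δ, hδ, fun r hr0 hr x => h r hr0 hr.le x⟩
  · refine ⟨EE, isOpen_ball, ⟨_, mem_ball_self (by norm_num)⟩, ?_, ?_, 1 / (4 * volume.real EE), ?_, ?_⟩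
    · exact (isCompact_closedBall _ _).of_isClosed_subset isClosed_closure closure_ball_subset_closedBall
    · intro x hx
      have h1 : x ∈ closedBall (EuclideanSpace.single 0 (-(1 / 2)) : Plane) (1 / 4) :=
        closure_ball_subset_closedBall hx
      have h2 : ‖x‖ ≤ ‖(EuclideanSpace.single 0 (-(1 / 2)) : Plane)‖ +
          dist x (EuclideanSpace.single 0 (-(1 / 2)) : Plane) := by
        rw [dist_eq_norm]
        calc ‖x‖ = ‖(EuclideanSpace.single 0 (-(1 / 2)) : Plane) +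
              (x - EuclideanSpace.single 0 (-(1 / 2)))‖ := by congr 1; abel
          _ ≤ _ := norm_add_le _ _
      rw [PiLp.norm_single, Real.norm_eq_abs] at h2
      have h3 : dist x (EuclideanSpace.single 0 (-(1 / 2)) : Plane) ≤ 1 / 4 := h1
      have h4 : |(-(1 / 2) : ℝ)| = 1 / 2 := by norm_num
      rw [mem_ball_zero_iff]
      linarith
    · have := vol_EE_pos
      positivity
    · intro u hu
      rw [Q_eq']
      exact coercive aa_nonneg hu
  · intro M
    obtain ⟨j, hj⟩ := exists_nat_ge M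
    refine ⟨uu j, test_uu j, ?_, integrable_exp (uu j) (test_uu j).1.continuous, ?_⟩
    · rw [Q_eq']
      exact Q_uu j
    · exact hj.trans_lt (blowup j)

end Pool.Agent.Results.MP_ed80cb_an.CoerciveBlowup
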